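import Pool.Agent.H970.RN.Defs
import Pool.Graph.R_seed8.H65R2.ON3.Gib1
import Pool.Graph.R_seed8.H221R2.ONJ.Gib1

/-! # RN970-7: the finite volume Gibbs states of a multigraph are Gibbs functionals on the algebra
of all the components; port of `Pool.Agent.H983R2.ONJ.gH_wfun` -/

set_option autoImplicit false

noncomputable section

namespace Pool.Agent.H337.RN

open MvPolynomial MeasureTheory Pool.Agent.H5R2.ON Pool.Agent.H717R2.ON3 Pool.Agent.H983R2.ONJ
open Pool.Agent.H12R2.ON Pool.Agent.H970.RN
open Pool.Agent.H717R2.ON3.GIB1 (continuous_cc continuous_splice T T_ne T_x T_zero coord_deriv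
  inner_deriv integral_const_T)
open Pool.Agent.H983R2.ONJ.Aux221 (continuous_enG Z_pos)

variable {N L : ℕ} {ι : Type} [Fintype ι]

theorem continuous_ptN : Continuous (fun S : Conf N L => ptN S) := by
  refine continuous_pi fun i => ?_
  exact (continuous_cc _).comp (continuous_apply _)

theorem continuous_evalptN (F : AlgN N (Tor L)) :
    Continuous (fun S : Conf N L => eval (ptN S) F) :=
  (MvPolynomial.continuous_eval F).comp continuous_ptN

/-- weighted evaluation -/
def wtN (G : Gr (Tor L) ι) (β : ℝ) (F : AlgN N (Tor L)) (S : Conf N L) : ℝ :=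
  eval (ptN S) F * Real.exp (β * enG G S)

theorem continuous_wtN (G : Gr (Tor L) ι) (β : ℝ) (F : AlgN N (Tor L)) :
    Continuous (wtN G β F : Conf N L → ℝ) :=
  (continuous_evalptN F).mul (Real.continuous_exp.comp
    (continuous_const.mul (continuous_enG G)))

variable [NeZero L]

theorem integrable_wtN (G : Gr (Tor L) ι) (β : ℝ) (Λ : Finset (Tor L)) (η : Conf N L)
    (F : AlgN N (Tor L)) :
    Integrable (fun S => wtN G β F (splice Λ S η)) (prior N L) :=
  integrable_prior N L ((continuous_wtN G β F).comp (continuous_splice Λ η))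

theorem gH_eqN (G : Gr (Tor L) ι) (β : ℝ) (Λ : Finset (Tor L)) (η : Conf N L)
    (F : AlgN N (Tor L)) : gH (fun S => β * enG G S) Λ η (fun S => eval (ptN S) F) =
      (∫ S, wtN G β F (splice Λ S η) ∂(prior N L)) /
        ∫ S, Real.exp (β * enG G (splice Λ S η)) ∂(prior N L) := rfl

/-- the linear functional -/
def EN (G : Gr (Tor L) ι) (β : ℝ) (Λ : Finset (Tor L)) (η : Conf N L) :
    AlgN N (Tor L) →ₗ[ℝ] ℝ where
  toFun F := gH (fun S => β * enG G S) Λ η (fun S => eval (ptN S) F)
  map_add' F F' := by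
    simp only [gH_eqN]
    rw [← add_div, ← integral_add (integrable_wtN G β Λ η F) (integrable_wtN G β Λ η F')]
    congr 1
    refine integral_congr_ae (Filter.Eventually.of_forall fun S => ?_)
    simp only [wtN, map_add, add_mul]
  map_smul' r F := by
    simp only [gH_eqN, RingHom.id_apply, smul_eq_mul]
    rw [← mul_div_assoc, ← integral_const_mul]
    congr 1
    refine integral_congr_ae (Filter.Eventually.of_forall fun S => ?_)
    simp only [wtN, smul_eval, mul_assoc]

theorem EN_one (hN : N ≠ 0) (G : Gr (Tor L) ι) (β : ℝ) (Λ : Finset (Tor L)) (η : Conf N L) :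
    EN G β Λ η 1 = 1 := by
  show gH (fun S => β * enG G S) Λ η (fun S => eval (ptN S) 1) = 1
  rw [gH_eqN]
  have : ∀ S : Conf N L, wtN G β 1 (splice Λ S η) = Real.exp (β * enG G (splice Λ S η)) := by
    intro S
    simp [wtN]
  simp only [this]
  exact div_self (Z_pos hN G β Λ η).ne'

theorem ptN_le (S : Conf N L) (x : Tor L) : ∑ i, ptN S (x, i) ^ 2 ≤ 1 := by
  have h2 : ∑ i, (S x : EuclideanSpace ℝ (Fin N)) i ^ 2 = 1 := by
    have h : ‖(S x : EuclideanSpace ℝ (Fin N))‖ = 1 := by simp
    have h2 : ‖(S x : EuclideanSpace ℝ (Fin N))‖ ^ 2 = 1 := by rw [h, one_pow]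
    rw [EuclideanSpace.norm_eq, Real.sq_sqrt (Finset.sum_nonneg fun i _ => by positivity)] at h2
    simpa only [Real.norm_eq_abs, sq_abs] using h2
  simp only [ptN, cc]
  exact h2.le

theorem EN_pos (hN : N ≠ 0) (G : Gr (Tor L) ι) (β : ℝ) (Λ : Finset (Tor L)) (η : Conf N L)
    (F : AlgN N (Tor L)) (hF : NNN F) : 0 ≤ EN G β Λ η F := by
  show 0 ≤ gH (fun S => β * enG G S) Λ η (fun S => eval (ptN S) F)
  rw [gH_eqN]
  refine div_nonneg (integral_nonneg fun S => ?_) (Z_pos hN G β Λ η).le
  exact mul_nonneg (hF _ fun x => ptN_le _ x) (Real.exp_nonneg _)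

/-- derivative of the energy -/
theorem enG_derivN (G : Gr (Tor L) ι) (β : ℝ) {p k : Fin N} (hpk : p ≠ k) (x : Tor L)
    (Λ : Finset (Tor L)) (η : Conf N L) (hx : x ∈ Λ) (t : ℝ) (S : Conf N L) :
    HasDerivAt (fun s => β * enG G (T hpk x Λ η s S))
      (-(eval (ptN (T hpk x Λ η t S)) (S1N G β x p k))) t := by
  have h1 : HasDerivAt (fun s => enG G (T hpk x Λ η s S))
      (∑ e : ι, ((if G.s e = x then (1 : ℝ) else 0) - (if G.t e = x then 1 else 0)) *
        ((T hpk x Λ η t S (G.s e) : EuclideanSpace ℝ (Fin N)) p *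
          (T hpk x Λ η t S (G.t e) : EuclideanSpace ℝ (Fin N)) k -
        (T hpk x Λ η t S (G.s e) : EuclideanSpace ℝ (Fin N)) k *
          (T hpk x Λ η t S (G.t e) : EuclideanSpace ℝ (Fin N)) p)) t := by
    unfold enG
    exact HasDerivAt.fun_sum fun e _ => inner_deriv hpk x Λ η hx t S (G.s e) (G.t e)
  refine (h1.const_mul β).congr_deriv ?_
  simp only [S1N, ScN, Matrix.sum_apply, Matrix.smul_apply, map_sum, smul_eval, curN, map_sub,
    map_mul, eval_X, grad, ptN, cc]
  rw [← Finset.sum_neg_distrib, Finset.mul_sum]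
  refine Finset.sum_congr rfl fun e _ => ?_
  simp only [Pi.single_apply]
  ring

/-- chain rule for polynomials -/
theorem eval_derivN {V : Type} [DecidableEq V] (x : V) (p k : Fin N) (σ : ℝ → V × Fin N → ℝ)
    (t : ℝ) (h : ∀ i, HasDerivAt (fun s => σ s i) (eval (σ t) (DN x p k (X i))) t)
    (F : AlgN N V) :
    HasDerivAt (fun s => eval (σ s) F) (eval (σ t) (DN x p k F)) t := by
  induction F using MvPolynomial.induction_on with
  | C a =>
    simp only [eval_C]
    have : DN x p k (C a) = 0 := by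
      rw [← algebraMap_eq]
      exact (DN x p k).map_algebraMap a
    rw [this, map_zero]
    exact hasDerivAt_const _ _
  | add P Q hP hQ =>
    simp only [map_add]
    exact hP.add hQ
  | mul_X P i hP =>
    have h1 : DN x p k (P * X i) = P * DN x p k (X i) + X i * DN x p k P := by
      rw [Derivation.leibniz]
      simp only [smul_eq_mul]
    rw [h1]
    simp only [map_mul, map_add, eval_X]
    have := hP.mul (h i)
    refine this.congr_deriv ?_
    ring

theorem path_derivN {p k : Fin N} (hpk : p ≠ k) (x : Tor L) (Λ : Finset (Tor L)) (η : Conf N L)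
    (hx : x ∈ Λ) (t : ℝ) (S : Conf N L) (i : Tor L × Fin N) :
    HasDerivAt (fun s => ptN (T hpk x Λ η s S) i)
      (eval (ptN (T hpk x Λ η t S)) (DN x p k (X i))) t := by
  have h := coord_deriv hpk x Λ η hx t S i.1 i.2
  have e : eval (ptN (T hpk x Λ η t S)) (DN x p k (X i)) =
      (if i.1 = x then (if i.2 = p then
        -(T hpk x Λ η t S i.1 : EuclideanSpace ℝ (Fin N)) k
        else if i.2 = k then
          (T hpk x Λ η t S i.1 : EuclideanSpace ℝ (Fin N)) p else 0) else 0) := by
    unfold DN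
    rw [mkDerivation_X]
    by_cases h1 : i.1 = x
    · rw [if_pos h1, if_pos h1, map_sub, ← h1]
      by_cases h2 : i.2 = p
      · have h3 : i.2 ≠ k := fun h3 => hpk (h2.symm.trans h3)
        rw [if_neg h3, if_pos h2, if_pos h2, map_zero, eval_X, zero_sub]
        rfl
      · rw [if_neg h2, if_neg h2, map_zero, sub_zero]
        by_cases h3 : i.2 = k
        · rw [if_pos h3, if_pos h3, eval_X]
          rfl
        · rw [if_neg h3, if_neg h3, map_zero]
    · rw [if_neg h1, if_neg h1, map_zero]
  rw [e]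
  exact h

/-- the derivative of the weighted observable -/
theorem wt_derivN (G : Gr (Tor L) ι) (β : ℝ) {p k : Fin N} (hpk : p ≠ k) (x : Tor L)
    (Λ : Finset (Tor L)) (η : Conf N L) (hx : x ∈ Λ) (F : AlgN N (Tor L)) (t : ℝ)
    (S : Conf N L) :
    HasDerivAt (fun s => wtN G β F (T hpk x Λ η s S))
      (wtN G β (DN x p k F - S1N G β x p k * F) (T hpk x Λ η t S)) t := by
  unfold wtN
  have h1 := eval_derivN x p k (fun s => ptN (T hpk x Λ η s S)) t
    (path_derivN hpk x Λ η hx t S) F
  have h2 := (enG_derivN G β hpk x Λ η hx t S).exp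
  refine (h1.mul h2).congr_deriv ?_
  simp only [map_sub, map_mul]
  ring

theorem keyN (hN : N ≠ 0) (G : Gr (Tor L) ι) (β : ℝ) {p k : Fin N} (hpk : p ≠ k) (x : Tor L)
    (Λ : Finset (Tor L)) (η : Conf N L) (hx : x ∈ Λ) (F : AlgN N (Tor L)) :
    ∫ S, wtN G β (DN x p k F - S1N G β x p k * F) (splice Λ S η) ∂(prior N L) = 0 := by
  haveI := prior_isProbabilityMeasure N L hN
  set P : AlgN N (Tor L) := DN x p k F - S1N G β x p k * F with hP
  obtain ⟨C, hC⟩ : ∃ C, ∀ S : Conf N L, ‖wtN G β P S‖ ≤ C := by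
    rcases isEmpty_or_nonempty (Conf N L) with h | h
    · exact ⟨0, fun S => (h.false S).elim⟩
    · obtain ⟨S0, hS0⟩ := (continuous_wtN G β P).norm.exists_forall_ge_of_hasCompactSupport
        (HasCompactSupport.of_compactSpace _)
      exact ⟨_, hS0⟩
  have hmeas : ∀ (H : AlgN N (Tor L)) (t : ℝ), AEStronglyMeasurable
      (fun S => wtN G β H (T hpk x Λ η t S)) (prior N L) := by
    intro H t
    have h1 : Measurable (fun S : Conf N L => wtN G β H (splice Λ S η)) :=
      ((continuous_wtN G β H).comp (continuous_splice Λ η)).measurable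
    exact (h1.comp (rotC p k hpk (Pi.single x t)).measurable).aestronglyMeasurable
  have hd := hasDerivAt_integral_of_dominated_loc_of_deriv_le (μ := prior N L)
    (F := fun t S => wtN G β F (T hpk x Λ η t S))
    (F' := fun t S => wtN G β P (T hpk x Λ η t S)) (x₀ := 0) (s := Set.univ)
    (bound := fun _ => C)
    Filter.univ_mem (Filter.Eventually.of_forall fun t => hmeas F t)
    (by
      simp only [T_zero]
      exact integrable_wtN G β Λ η F)
    (hmeas P 0)
    (Filter.Eventually.of_forall fun S t _ => hC _)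
    (integrable_const C)
    (Filter.Eventually.of_forall fun S t _ => wt_derivN G β hpk x Λ η hx F t S)
  have h2 := hd.2
  simp only [integral_const_T hN hpk x Λ η (wtN G β F), T_zero] at h2
  exact h2.unique (hasDerivAt_const _ _)

theorem DN_self {V : Type} [DecidableEq V] (x : V) (i : Fin N) (F : AlgN N V) :
    DN x i i F = 0 := by
  have h : (DN x i i : DerN N V) = 0 := by
    apply MvPolynomial.derivation_ext
    intro v
    unfold DN
    rw [mkDerivation_X, sub_self, ite_self]
    rfl
  rw [h]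
  rfl

theorem S1N_self (G : Gr (Tor L) ι) (β : ℝ) (x : Tor L) (i : Fin N) : S1N G β x i i = 0 := by
  simp only [S1N, ScN, Matrix.sum_apply, Matrix.smul_apply, curN, sub_self, smul_zero,
    Finset.sum_const_zero]

theorem EN_ibp (hN : N ≠ 0) (G : Gr (Tor L) ι) (β : ℝ) (Λ : Finset (Tor L)) (η : Conf N L)
    (x : Tor L) (hx : x ∈ Λ) (i j : Fin N) (F : AlgN N (Tor L)) :
    EN G β Λ η (DN x i j F) = EN G β Λ η (S1N G β x i j * F) := by
  by_cases hij : i = j
  · subst hij
    rw [DN_self, S1N_self, zero_mul]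
  · rw [← sub_eq_zero, ← map_sub]
    show gH (fun S => β * enG G S) Λ η (fun S => eval (ptN S) (DN x i j F - S1N G β x i j * F)) = 0
    rw [gH_eqN, keyN hN G β hij x Λ η hx F, zero_div]

/-- **The finite volume Gibbs states of a multigraph are Gibbs functionals.** -/
theorem gib : S_gib := by
  intro N hN L _ ι _ G β Λ η
  exact ⟨⟨EN G β Λ η, EN_one hN G β Λ η, EN_pos hN G β Λ η, EN_ibp hN G β Λ η⟩, fun _ => rfl⟩

end Pool.Agent.H337.RN
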